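import Mathlib
import Pool.Agent.H25.Galvin

set_option autoImplicit false

universe u

namespace Pool.Agent.Results.MP_52157e_lc.NonGalvin

open Cardinal Set

/-- The Galvin property of a filter on `κ`. -/
def Galvin (κ : Cardinal.{u}) (F : Filter κ.ord.ToType) : Prop :=
  ∀ A : (Order.succ κ).ord.ToType → Set κ.ord.ToType, (∀ i, A i ∈ F) →
    ∃ I : Set (Order.succ κ).ord.ToType, #I = κ ∧ (⋂ i ∈ I, A i) ∈ F

theorem result (κ : Cardinal.{u}) (hκ : κ.IsRegular) (hu : ℵ₀ < κ) :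
    ∃ F : Filter κ.ord.ToType, F.NeBot ∧ CardinalInterFilter F κ ∧
      (∀ C, IsClub C → C ∈ F) ∧ ¬ Galvin κ F := by
  obtain ⟨F, A, h1, h2, h3, h4⟩ := Pool.Agent.H25.Galvin.main
    (Pool.Agent.H25.NSIdealU.good_of_regular κ hκ hu) (V := (Order.succ κ).ord.ToType)
    (fun i => by
      have := mk_Iio_lt i (by simp)
      rw [mk_ord_toType] at this ⊢
      exact Order.lt_succ_iff.1 this)
  rw [mk_ord_toType] at h1 h4
  refine ⟨F, ⟨fun h5 => ?_⟩, h1, h2, fun h5 => ?_⟩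
  · obtain ⟨I, _, hI⟩ := le_mk_iff_exists_subset.1
      (show κ ≤ #(Set.univ : Set (Order.succ κ).ord.ToType) by simpa using Order.le_succ κ)
    exact h4 I hI (h5 ▸ Filter.mem_bot)
  · obtain ⟨I, hI1, hI2⟩ := h5 A h3
    exact h4 I hI1 hI2

end Pool.Agent.Results.MP_52157e_lc.NonGalvin
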